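import Pool.Agent.T6.H42.Defs
import Pool.Agent.T6.H42.Low3
import Pool.Agent.T6.H42P.Par
import Pool.Agent.T6.H42U.Upper

/-!
# The energy exponent of charged bosons with kinetic energy `|p|^α`

For every `α > 1` the ground state energy `E₀^{(α)}(N)` of `N` particles of charges `±1` in `ℝ³`
with kinetic energy `∑ |p_i|^α`, minimised over all charge assignments and all normalised wave
functions (no symmetry), is of the order `-N^{γ(α)}`.

The configuration space `Cfg N = ℝ^{3N}`, the positions `pos x i`, the Coulomb potential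
`coul e x = ∑_{i<j} e_i e_j / |x_i - x_j|`, the charges `IsCharge e` and the exponent `gam α` are
defined in `Pool/Agent/T6/H42/Defs.lean`.
-/

set_option autoImplicit false

noncomputable section

namespace Pool.Agent.Results.MP_d1ae63_mp.EnergyExponent

open Pool.Agent.T6.H42 MeasureTheory
open scoped ENNReal FourierTransform

/-- The Hilbert space `L²(E)` of complex functions. -/
abbrev L2 (E : Type) [MeasureSpace E] : Type := Lp ℂ 2 (volume : Measure E)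

/-- The quadratic form of the Fourier multiplier with symbol `w`: the integral of
`w(ξ) |ψ̂(ξ)|²`, where `ψ̂ = 𝓕 ψ` is the unitary Fourier transform
`ψ̂(ξ) = ∫ exp (-2 π i x·ξ) ψ(x) dx`. -/
def kinForm {E : Type} [NormedAddCommGroup E] [InnerProductSpace ℝ E] [FiniteDimensional ℝ E]
    [MeasurableSpace E] [BorelSpace E] (w : E → ℝ) (ψ : L2 E) : ℝ≥0∞ :=
  ∫⁻ ξ, ENNReal.ofReal (w ξ * ‖(𝓕 ψ : L2 E) ξ‖ ^ 2)

/-- The potential energy `⟨ψ, V ψ⟩`. -/
def potForm {E : Type} [MeasureSpace E] (V : E → ℝ) (ψ : L2 E) : ℝ := ∫ x, V x * ‖ψ x‖ ^ 2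

/-- All values `⟨ψ, w ψ⟩ + ⟨ψ, V ψ⟩` of the energy, where `V` runs over the set `𝒱` of potentials
and `ψ` over the normalised functions with finite kinetic energy and absolutely convergent
potential energy. -/
def energySet {E : Type} [NormedAddCommGroup E] [InnerProductSpace ℝ E] [FiniteDimensional ℝ E]
    [MeasurableSpace E] [BorelSpace E] (w : E → ℝ) (𝒱 : Set (E → ℝ)) : Set ℝ :=
  {ε | ∃ V ∈ 𝒱, ∃ ψ : L2 E, ‖ψ‖ = 1 ∧ kinForm w ψ ≠ ⊤ ∧
    Integrable (fun x => V x * ‖ψ x‖ ^ 2) ∧ ε = (kinForm w ψ).toReal + potForm V ψ}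

/-- The symbol of the kinetic energy `∑ i, |p_i|^α`; the momentum `p_i` is multiplication
by `2 π ξ_i`. -/
def symb (α : ℝ) (N : ℕ) (ξ : Cfg N) : ℝ := ∑ i, (2 * Real.pi * ‖pos ξ i‖) ^ α

/-- The Coulomb potentials of all charge assignments. -/
def coulombs (N : ℕ) : Set (Cfg N → ℝ) := {V | ∃ e : Fin N → ℝ, IsCharge e ∧ V = coul e}

/-- The set of all values of the energy `K(ψ) + P(ψ)` of `N` particles. -/
def energyValues (α : ℝ) (N : ℕ) : Set ℝ := energySet (symb α N) (coulombs N)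

/-- The ground state energy `E₀^{(α)}(N)`. -/
def groundEnergy (α : ℝ) (N : ℕ) : ℝ := sInf (energyValues α N)

theorem energyValues_eq (α : ℝ) (N : ℕ) : energyValues α N = energies α N := by
  ext ε
  constructor
  · rintro ⟨V, ⟨e, he, rfl⟩, ψ, hψ, hk, hi, hε⟩
    exact ⟨e, he, ψ, hψ, hk, hi, hε⟩
  · rintro ⟨e, he, ψ, hψ, hk, hi, hε⟩
    exact ⟨coul e, ⟨e, he, rfl⟩, ψ, hψ, hk, hi, hε⟩

/-- The lower bound. -/
theorem lower (α : ℝ) (hα : 1 < α) : ∃ C : ℝ, 0 < C ∧ ∃ N0 : ℕ, ∀ N : ℕ, N0 ≤ N →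
    ∀ e : Fin N → ℝ, IsCharge e → ∀ ψ : Wave N, kin α ψ ≠ ⊤ →
      Integrable (fun x => coul e x * ‖ψ x‖ ^ 2) ∧
        -(C * (N : ℝ) ^ gam α * ‖ψ‖ ^ 2) ≤ (kin α ψ).toReal + pot e ψ := by
  have hk : α < 2 * ((⌈α⌉₊ : ℝ) + 1) := by
    have := Nat.le_ceil α
    linarith
  have hC7 : 0 < C7 ⌈α⌉₊ α := by
    have h5 := C5_pos ⌈α⌉₊
    have h6 := C6_pos ⌈α⌉₊ α (by linarith) hk
    unfold C7
    positivity
  exact lower_of_par α hα ⌈α⌉₊ hk
    (Pool.Agent.T6.H42P.params_exist α hα (⌈α⌉₊ + 1) (Nat.succ_pos _) _ (inv_pos.2 hC7))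

/-- **The energy exponent for all `α > 1`.** For every `α > 1` there are constants
`0 < c ≤ C < ∞` such that `-C N^{γ(α)} ≤ E₀^{(α)}(N) ≤ -c N^{γ(α)}` for all sufficiently large `N`,
where `E₀^{(α)}(N)` is a genuine infimum (of a nonempty set that is bounded below). -/
theorem result : ∀ α : ℝ, 1 < α → ∃ c C : ℝ, 0 < c ∧ c ≤ C ∧ ∃ N0 : ℕ, ∀ N : ℕ, N0 ≤ N →
    (energyValues α N).Nonempty ∧ BddBelow (energyValues α N) ∧
      -(C * (N : ℝ) ^ gam α) ≤ groundEnergy α N ∧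
      groundEnergy α N ≤ -(c * (N : ℝ) ^ gam α) := by
  intro α hα
  obtain ⟨C, hC, N1, hlow⟩ := lower α hα
  obtain ⟨c, hc, N2, hup⟩ := Pool.Agent.T6.H42U.upper α hα
  refine ⟨c, max c C, hc, le_max_left _ _, max N1 N2, fun N hN => ?_⟩
  unfold groundEnergy
  rw [energyValues_eq]
  have hlb : ∀ ε ∈ energies α N, -(max c C * (N : ℝ) ^ gam α) ≤ ε := by
    rintro ε ⟨e, he, ψ, hψ, hkin, -, rfl⟩
    have h := (hlow N ((le_max_left _ _).trans hN) e he ψ hkin).2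
    rw [hψ, one_pow, mul_one] at h
    have h2 : C * (N : ℝ) ^ gam α ≤ max c C * (N : ℝ) ^ gam α := by
      gcongr
      exact le_max_right _ _
    linarith
  obtain ⟨e, he, ψ, hψ, hkin, hint, hε⟩ := hup N ((le_max_right _ _).trans hN)
  have hmem : (kin α ψ).toReal + pot e ψ ∈ energies α N := ⟨e, he, ψ, hψ, hkin, hint, rfl⟩
  refine ⟨⟨_, hmem⟩, ⟨_, hlb⟩, le_csInf ⟨_, hmem⟩ hlb, ?_⟩
  refine (csInf_le ⟨_, hlb⟩ hmem).trans (hε.trans (le_of_eq ?_))
  ring

end Pool.Agent.Results.MP_d1ae63_mp.EnergyExponent
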